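import Mathlib

/-!
# MP_711a76_lc: a weight-preserving isometry of the five-qubit code that is not monomial

All fifteen nonzero elements of the stabilizer of the `[[5,1,3]]` code have weight four, so every
linear bijection of the stabilizer onto itself preserves the weight; one of them does not permute
the five coordinate kernels, hence extends to no monomial transformation.
-/

set_option autoImplicit false

namespace Pool.Agent.Results.MP_711a76_lc.FiveQubit

/-- The space `A_q^n`, with `A_q = F_q × F_q`. -/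
abbrev A (q n : ℕ) : Type := Fin n → ZMod q × ZMod q

/-- The symplectic form. -/
def symp {q n : ℕ} (u v : A q n) : ZMod q := ∑ i, ((u i).1 * (v i).2 - (u i).2 * (v i).1)

/-- The number of nonzero coordinates. -/
def wt {q n : ℕ} (u : A q n) : ℕ := (Finset.univ.filter fun i => u i ≠ 0).card

/-- The symplectic dual, as a set. -/
def perp {q n : ℕ} (C : Submodule (ZMod q) (A q n)) : Set (A q n) := {u | ∀ c ∈ C, symp c u = 0}

/-- Stabilizer codes are the self-orthogonal subspaces. -/
def IsStabilizer {q n : ℕ} (C : Submodule (ZMod q) (A q n)) : Prop := (C : Set (A q n)) ⊆ perp C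

open Classical in
/-- The distance of a stabilizer code: the least weight of an element of `C^⊥ \ C` if `C ≠ C^⊥`, and
the least weight of a nonzero element of `C` if `C = C^⊥` (the infimum of the empty set is `0`). -/
noncomputable def dist {q n : ℕ} (C : Submodule (ZMod q) (A q n)) : ℕ :=
  if (C : Set (A q n)) = perp C then sInf {w | ∃ u ∈ C, u ≠ 0 ∧ wt u = w}
  else sInf {w | ∃ u ∈ perp C, u ∉ C ∧ wt u = w}

/-- The map `u ↦ (g_i (u_{π⁻¹ i}))_i`. With each `g_i` a linear bijection of `F_q × F_q` these are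
the monomial transformations. -/
def monomial {q n : ℕ} (π : Equiv.Perm (Fin n))
    (g : Fin n → ((ZMod q × ZMod q) ≃ₗ[ZMod q] (ZMod q × ZMod q))) (u : A q n) : A q n :=
  fun i => g i (u (π.symm i))

/-- `f` extends to a monomial transformation. -/
def Extends {q n : ℕ} {C D : Submodule (ZMod q) (A q n)} (f : C ≃ₗ[ZMod q] D) : Prop :=
  ∃ (π : Equiv.Perm (Fin n)) (g : Fin n → ((ZMod q × ZMod q) ≃ₗ[ZMod q] (ZMod q × ZMod q))),
    ∀ c : C, monomial π g (c : A q n) = (f c : A q n)

/-- `f` preserves the weight. -/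
def Isometric {q n : ℕ} {C D : Submodule (ZMod q) (A q n)} (f : C ≃ₗ[ZMod q] D) : Prop :=
  ∀ c : C, wt (f c : A q n) = wt (c : A q n)

/-- The extension property for stabilizer codes in `A_q^n` of distance above two. -/
def ExtensionProperty (q n : ℕ) : Prop :=
  ∀ C D : Submodule (ZMod q) (A q n), IsStabilizer C → IsStabilizer D → 2 < dist C → 2 < dist D →
    ∀ f : C ≃ₗ[ZMod q] D, Isometric f → Extends f

/-! ### The five-qubit code -/

/-- The generators `XZZXI`, `IXZZX`, `XIXZZ`, `ZXIXZ`, with `X = (1,0)` and `Z = (0,1)`. -/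
def gen : Fin 4 → A 2 5 :=
  ![![(1, 0), (0, 1), (0, 1), (1, 0), (0, 0)],
    ![(0, 0), (1, 0), (0, 1), (0, 1), (1, 0)],
    ![(1, 0), (0, 0), (1, 0), (0, 1), (0, 1)],
    ![(0, 1), (1, 0), (0, 0), (1, 0), (0, 1)]]

/-- The encoder. -/
def enc : (Fin 4 → ZMod 2) →ₗ[ZMod 2] A 2 5 where
  toFun a := fun i => (∑ k, a k * (gen k i).1, ∑ k, a k * (gen k i).2)
  map_add' a b := by
    funext i
    simp only [Pi.add_apply, add_mul, Finset.sum_add_distrib, Prod.mk_add_mk]
  map_smul' r a := by
    funext i
    simp only [Pi.smul_apply, smul_eq_mul, mul_assoc, Finset.mul_sum, RingHom.id_apply,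
      Prod.smul_mk]

/-- The five-qubit code. -/
def C5 : Submodule (ZMod 2) (A 2 5) := LinearMap.range enc

/-- The linear bijection swapping the first two message symbols. -/
def m : (Fin 4 → ZMod 2) ≃ₗ[ZMod 2] (Fin 4 → ZMod 2) :=
  LinearEquiv.funCongrLeft (ZMod 2) (ZMod 2) (Equiv.swap 0 1)

theorem wt_enc : ∀ a : Fin 4 → ZMod 2, a ≠ 0 → wt (enc a) = 4 := by decide +kernel

theorem enc_inj : Function.Injective enc := by
  rw [← LinearMap.ker_eq_bot, LinearMap.ker_eq_bot']
  intro a ha
  by_contra h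
  have := wt_enc a h
  rw [ha] at this
  revert this
  decide

theorem symp_enc : ∀ a b : Fin 4 → ZMod 2, symp (enc a) (enc b) = 0 := by decide +kernel

theorem dist_enc : ∀ u : A 2 5, (∀ k : Fin 4, symp (enc (Pi.single k 1)) u = 0) → u ≠ 0 →
    3 ≤ wt u := by decide +kernel

theorem exists_wt3 : ∃ u : A 2 5, (∀ a : Fin 4 → ZMod 2, symp (enc a) u = 0) ∧ wt u = 3 := by
  refine ⟨![(1, 0), (1, 1), (1, 0), (0, 0), (0, 0)], ?_⟩
  decide +kernel

theorem kernels : ∀ j : Fin 5, ∃ a : Fin 4 → ZMod 2, (enc (m a)) 0 = 0 ∧ (enc a) j ≠ 0 := by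
  decide +kernel

theorem mem_perp {u : A 2 5} :
    u ∈ perp C5 ↔ ∀ a : Fin 4 → ZMod 2, symp (enc a) u = 0 := by
  unfold perp C5
  rw [Set.mem_ofPred_eq]
  constructor
  · intro h a
    exact h _ ⟨a, rfl⟩
  · rintro h _ ⟨a, rfl⟩
    exact h a

theorem stab : IsStabilizer C5 := by
  rintro _ ⟨b, rfl⟩
  exact mem_perp.2 fun a => symp_enc a b

theorem wt_pos_of_mem {u : A 2 5} (hu : u ∈ C5) (h0 : u ≠ 0) : wt u = 4 := by
  obtain ⟨a, rfl⟩ := hu
  refine wt_enc a ?_
  rintro rfl
  exact h0 (map_zero enc)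

theorem dist_eq : dist C5 = 3 := by
  obtain ⟨u, hu, hw⟩ := exists_wt3
  have hup : u ∈ perp C5 := mem_perp.2 hu
  have huC : u ∉ C5 := by
    intro h
    have h0 : u ≠ 0 := by
      rintro rfl
      revert hw
      decide
    have := wt_pos_of_mem h h0
    omega
  have hne : (C5 : Set (A 2 5)) ≠ perp C5 := by
    intro h
    rw [← h] at hup
    exact huC hup
  unfold dist
  rw [if_neg hne]
  apply le_antisymm
  · exact Nat.sInf_le ⟨u, hup, huC, hw⟩
  · apply le_csInf
    · exact ⟨3, u, hup, huC, hw⟩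
    · rintro w ⟨v, hv, hvC, rfl⟩
      refine dist_enc v (fun k => mem_perp.1 hv _) ?_
      rintro rfl
      exact hvC (zero_mem _)

/-- The parametrization of the code. -/
noncomputable def e : (Fin 4 → ZMod 2) ≃ₗ[ZMod 2] C5 := LinearEquiv.ofInjective enc enc_inj

theorem e_apply (a : Fin 4 → ZMod 2) : (e a : A 2 5) = enc a := rfl

/-- The isometry. -/
noncomputable def f : C5 ≃ₗ[ZMod 2] C5 := (e.symm.trans m).trans e

theorem f_e (a : Fin 4 → ZMod 2) : f (e a) = e (m a) := by
  simp [f]

theorem f_wt : Isometric f := by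
  intro c
  by_cases hc : c = 0
  · rw [hc, map_zero]
  · rw [wt_pos_of_mem c.2 (fun h => hc (Subtype.ext h)),
      wt_pos_of_mem (f c).2 (fun h => hc ((map_eq_zero_iff f f.injective).1 (Subtype.ext h)))]

theorem not_extends : ¬ Extends f := by
  rintro ⟨π, g, h⟩
  obtain ⟨a, ha0, haj⟩ := kernels (π.symm 0)
  have h1 := congrFun (h (e a)) 0
  rw [f_e, e_apply, e_apply, ha0] at h1
  unfold monomial at h1
  exact haj ((map_eq_zero_iff _ (g 0).injective).1 h1)

/-- The code has dimension four. -/
theorem finrank_C5 : Module.finrank (ZMod 2) C5 = 4 := by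
  rw [← LinearEquiv.finrank_eq e]
  simp

/-- The extension property fails for qubit stabilizer codes of length five and distance above two:
some weight-preserving isometry of the five-qubit code onto itself extends to no monomial
transformation. -/
theorem result : Nat.Prime 2 ∧ ¬ ExtensionProperty 2 5 := by
  refine ⟨Nat.prime_two, fun h => ?_⟩
  have hd : 2 < dist C5 := by rw [dist_eq]; norm_num
  exact not_extends (h C5 C5 stab stab hd hd f f_wt)

end Pool.Agent.Results.MP_711a76_lc.FiveQubit
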